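import Mathlib
import Pool.Agent.Helper566.FD.J2
import Pool.Agent.Helper566.FD.J4
import Pool.Agent.Helper566.FD.J10

/-! Zero test for polynomials in one transcendental letter and independent square roots. -/

set_option autoImplicit false

namespace Pool.Agent.H269R3.CF

open Pool.Agent.Helper566.FD (Pol wv pv mulP negP powP letters LettersIn pv_append pv_negP pv_mulP
  pv_powP comp_poly)
open Pool.Agent.Helper566.FD.J4 (pv_nil pv_cons wv_append wv_cons pv_mono_mul wv_split)

/-- the iterates `g₀ = t`, `g_{k+1} = g_k² - 2` as polynomials in the letter `0` -/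
def G (k : ℕ) : Pol := Nat.rec [(1, [0])] (fun _ q => mulP q q ++ [(-2, [])]) k

theorem G_zero : G 0 = [(1, [0])] := rfl
theorem G_succ (k : ℕ) : G (k + 1) = mulP (G k) (G k) ++ [(-2, [])] := rfl

/-- squares of the letters: `2n+1 ↦ G (3n)`, `2n+2 ↦ - G (3n)` -/
def DD (i : ℕ) : Pol := bif i % 2 == 1 then G (3 * (i / 2)) else negP (G (3 * (i / 2 - 1)))

def red (n : ℕ) (m : ℤ × List ℕ) : Pol :=
  mulP [(m.1, m.2.filter (fun i => decide (i ≠ n)))] (powP (DD n) (m.2.count n / 2))

def partA (n : ℕ) (p : Pol) : Pol :=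
  p.flatMap (fun m => if m.2.count n % 2 = 0 then red n m else [])
def partB (n : ℕ) (p : Pol) : Pol :=
  p.flatMap (fun m => if m.2.count n % 2 = 0 then [] else red n m)

def elim (n : ℕ) (st : List Pol) : List Pol := st.flatMap (fun p => [partA n p, partB n p])

def stl (p : Pol) : List Pol :=
  (letters p).foldl (fun st n => bif n == 0 then st else elim n st) [p]

/-- sum of the coefficients of the monomials of length `k` -/
def cf (k : ℕ) (q : Pol) : ℤ := ((q.filter (fun m' => m'.2.length == k)).map (fun m => m.1)).sum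

def z0 (q : Pol) : Bool := q.all (fun m => decide (cf m.2.length q = 0))

def zt (p : Pol) : Bool := (stl p).all z0

structure Model (I : ℕ → Prop) (y : ℕ → ℝ) : Prop where
  tr : Transcendental ℤ (y 0)
  zero : I 0
  sq : ∀ n, n ≠ 0 → I n → y n ^ 2 = pv y (DD n)
  ind : ∀ n, n ≠ 0 → I n → y n ∉ Subfield.closure (y '' {m | I m ∧ m ≠ n})

theorem pv_red (y : ℕ → ℝ) (n : ℕ) (hn : y n ^ 2 = pv y (DD n)) (m : ℤ × List ℕ) :
    pv y (red n m) = (m.1 : ℝ) * wv y (m.2.filter (fun i => decide (i ≠ n))) *
      y n ^ (2 * (m.2.count n / 2)) := by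
  unfold red
  rw [pv_mulP, pv_powP, ← hn, ← pow_mul, pv_cons, pv_nil, add_zero]

theorem part_eq (y : ℕ → ℝ) (n : ℕ) (hn : y n ^ 2 = pv y (DD n)) (p : Pol) :
    pv y p = pv y (partA n p) + pv y (partB n p) * y n := by
  induction p with
  | nil => simp [partA, partB, pv]
  | cons m p ih =>
    have hA : partA n (m :: p) = (if m.2.count n % 2 = 0 then red n m else []) ++ partA n p := by
      unfold partA
      rw [List.flatMap_cons]
    have hB : partB n (m :: p) = (if m.2.count n % 2 = 0 then [] else red n m) ++ partB n p := by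
      unfold partB
      rw [List.flatMap_cons]
    rw [hA, hB, pv_append, pv_append, pv_cons, ih, wv_split y n m.2]
    by_cases h : m.2.count n % 2 = 0
    · rw [if_pos h, if_pos h, pv_red y n hn, pv_nil]
      have e : 2 * (m.2.count n / 2) = m.2.count n := by omega
      rw [e]
      ring
    · rw [if_neg h, if_neg h, pv_red y n hn, pv_nil]
      have e : m.2.count n = 2 * (m.2.count n / 2) + 1 := by omega
      have e2 : y n ^ (m.2.count n) = y n ^ (2 * (m.2.count n / 2)) * y n := by
        rw [← pow_succ, ← e]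
      rw [e2]
      ring

theorem letters_mulP_aux (p q : Pol) (i : ℕ) (h : i ∈ letters (mulP p q)) :
    i ∈ letters p ∨ i ∈ letters q := by
  simp only [letters, mulP, List.mem_flatMap, List.mem_map] at h
  obtain ⟨m, ⟨a, ha, b, hb, rfl⟩, hm⟩ := h
  simp only [List.mem_append] at hm
  rcases hm with hm | hm
  · left
    simp only [letters, List.mem_flatMap]
    exact ⟨a, ha, hm⟩
  · right
    simp only [letters, List.mem_flatMap]
    exact ⟨b, hb, hm⟩

theorem letters_powP_aux (p : Pol) (j : ℕ) (i : ℕ) (h : i ∈ letters (powP p j)) :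
    i ∈ letters p := by
  induction j with
  | zero => simp [powP, letters] at h
  | succ j ih =>
    have h' : i ∈ letters (mulP p (powP p j)) := h
    rcases letters_mulP_aux _ _ _ h' with h1 | h1
    · exact h1
    · exact ih h1

theorem letters_red_aux (n : ℕ) (m : ℤ × List ℕ) (i : ℕ) (h : i ∈ letters (red n m)) :
    (i ∈ m.2 ∧ i ≠ n) ∨ i ∈ letters (DD n) := by
  unfold red at h
  rcases letters_mulP_aux _ _ _ h with h1 | h1
  · left
    simp only [letters, List.flatMap_cons, List.flatMap_nil, List.append_nil, List.mem_filter,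
      decide_eq_true_eq] at h1
    exact h1
  · right
    exact letters_powP_aux _ _ _ h1

theorem letters_part (n : ℕ) (p : Pol) (q : Pol) (hq : q = partA n p ∨ q = partB n p) :
    ∀ i ∈ letters q, (i ∈ letters p ∧ i ≠ n) ∨ i ∈ letters (DD n) := by
  intro i hi
  have key : ∃ m ∈ p, i ∈ letters (red n m) := by
    rcases hq with rfl | rfl
    · simp only [letters, partA, List.mem_flatMap] at hi
      obtain ⟨a, ⟨m, hm, ha⟩, hia⟩ := hi
      refine ⟨m, hm, ?_⟩
      split_ifs at ha with hc
      · simp only [letters, List.mem_flatMap]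
        exact ⟨a, ha, hia⟩
      · simp at ha
    · simp only [letters, partB, List.mem_flatMap] at hi
      obtain ⟨a, ⟨m, hm, ha⟩, hia⟩ := hi
      refine ⟨m, hm, ?_⟩
      split_ifs at ha with hc
      · simp at ha
      · simp only [letters, List.mem_flatMap]
        exact ⟨a, ha, hia⟩
  obtain ⟨m, hm, hi'⟩ := key
  rcases letters_red_aux n m i hi' with h1 | h1
  · left
    refine ⟨?_, h1.2⟩
    simp only [letters, List.mem_flatMap]
    exact ⟨m, hm, h1.1⟩
  · right; exact h1

theorem letters_append' (p q : Pol) (i : ℕ) (h : i ∈ letters (p ++ q)) :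
    i ∈ letters p ∨ i ∈ letters q := by
  unfold letters at *
  rw [List.flatMap_append, List.mem_append] at h
  exact h

theorem letters_G (k : ℕ) : ∀ i ∈ letters (G k), i = 0 := by
  induction k with
  | zero =>
    intro i hi
    rw [G_zero] at hi
    simpa [letters] using hi
  | succ k ih =>
    intro i hi
    rw [G_succ] at hi
    rcases letters_append' _ _ _ hi with h | h
    · rcases letters_mulP_aux _ _ _ h with h | h
      · exact ih i h
      · exact ih i h
    · simp [letters] at h

theorem letters_negP (p : Pol) (i : ℕ) (h : i ∈ letters (negP p)) : i ∈ letters p := by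
  simp only [letters, negP, List.mem_flatMap, List.mem_map] at h ⊢
  obtain ⟨m, ⟨a, ha, rfl⟩, hm⟩ := h
  exact ⟨a, ha, hm⟩

/-- the only letter of `DD n` is `0` -/
theorem letters_DD (n : ℕ) : ∀ i ∈ letters (DD n), i = 0 := by
  intro i hi
  unfold DD at hi
  cases hb : (n % 2 == 1) with
  | true => rw [hb, cond_true] at hi; exact letters_G _ i hi
  | false => rw [hb, cond_false] at hi; exact letters_G _ i (letters_negP _ _ hi)

theorem zt_pv_mem (y : ℕ → ℝ) (J : Set ℕ) (q : Pol) (h : ∀ i ∈ letters q, i ∈ J) :
    pv y q ∈ Subfield.closure (y '' J) := by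
  unfold pv
  apply list_sum_mem
  intro x hx
  rw [List.mem_map] at hx
  obtain ⟨m, hm, rfl⟩ := hx
  apply mul_mem
  · exact intCast_mem _ _
  · unfold wv
    apply list_prod_mem
    intro z hz
    rw [List.mem_map] at hz
    obtain ⟨i, hi, rfl⟩ := hz
    exact Subfield.subset_closure ⟨i, h i (List.mem_flatMap.mpr ⟨m, hm, hi⟩), rfl⟩

theorem zt_core (J : ℕ → Prop) (y : ℕ → ℝ) (n : ℕ) (h0 : J 0) (hn0 : n ≠ 0)
    (hind : y n ∉ Subfield.closure (y '' {m | J m ∧ m ≠ n})) (hsq : y n ^ 2 = pv y (DD n))
    (q : Pol) (hq : ∀ i ∈ letters q, J i) :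
    pv y q = 0 ↔ (pv y (partA n q) = 0 ∧ pv y (partB n q) = 0) := by
  have hX : ∀ q', (q' = partA n q ∨ q' = partB n q) →
      pv y q' ∈ Subfield.closure (y '' {m | J m ∧ m ≠ n}) := by
    intro q' hq'
    apply zt_pv_mem
    intro i hi
    rcases letters_part n q _ hq' i hi with h | h
    · exact ⟨hq i h.1, h.2⟩
    · rw [letters_DD n i h]
      exact ⟨h0, hn0.symm⟩
  have hA := hX _ (Or.inl rfl)
  have hB := hX _ (Or.inr rfl)
  have hE := part_eq y n hsq q
  constructor
  · intro h0
    have hB0 : pv y (partB n q) = 0 := by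
      by_contra hne
      apply hind
      have e : y n = - pv y (partA n q) / pv y (partB n q) := by
        field_simp
        rw [h0] at hE
        linarith
      rw [e]
      exact div_mem (neg_mem hA) hB
    rw [hB0, h0] at hE
    exact ⟨by linarith, hB0⟩
  · rintro ⟨h1, h2⟩
    rw [hE, h1, h2]
    ring

theorem zt_mem_elim (n : ℕ) (st : List Pol) (q : Pol) :
    q ∈ elim n st ↔ ∃ p ∈ st, q = partA n p ∨ q = partB n p := by
  unfold elim
  rw [List.mem_flatMap]
  constructor
  · rintro ⟨p, hp, h⟩
    refine ⟨p, hp, ?_⟩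
    simpa using h
  · rintro ⟨p, hp, h⟩
    refine ⟨p, hp, ?_⟩
    simpa using h

theorem zt_elim (J : ℕ → Prop) (y : ℕ → ℝ) (n : ℕ) (h0 : J 0) (hn0 : n ≠ 0)
    (hind : y n ∉ Subfield.closure (y '' {m | J m ∧ m ≠ n})) (hsq : y n ^ 2 = pv y (DD n))
    (st : List Pol) (hst : ∀ q ∈ st, ∀ i ∈ letters q, J i) :
    (∀ q ∈ elim n st, ∀ i ∈ letters q, J i) ∧
    ((∀ q ∈ st, pv y q = 0) ↔ ∀ q ∈ elim n st, pv y q = 0) ∧
    (∀ q ∈ elim n st, ∀ i ∈ letters q, (i ≠ n ∧ ∃ q' ∈ st, i ∈ letters q') ∨ i = 0) := by
  have h3 : ∀ q ∈ elim n st, ∀ i ∈ letters q,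
      (i ≠ n ∧ ∃ q' ∈ st, i ∈ letters q') ∨ i = 0 := by
    intro q hq i hi
    obtain ⟨p, hp, h⟩ := (zt_mem_elim n st q).mp hq
    rcases letters_part n p q h i hi with h | h
    · exact Or.inl ⟨h.2, p, hp, h.1⟩
    · exact Or.inr (letters_DD n i h)
  refine ⟨?_, ?_, h3⟩
  · intro q hq i hi
    rcases h3 q hq i hi with ⟨_, q', hq', h⟩ | h
    · exact hst q' hq' i h
    · rw [h]; exact h0
  · constructor
    · intro h q hq
      obtain ⟨p, hp, h'⟩ := (zt_mem_elim n st q).mp hq
      have := (zt_core J y n h0 hn0 hind hsq p (hst p hp)).mp (h p hp)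
      rcases h' with rfl | rfl
      · exact this.1
      · exact this.2
    · intro h q hq
      refine (zt_core J y n h0 hn0 hind hsq q (hst q hq)).mpr ⟨?_, ?_⟩
      · exact h _ ((zt_mem_elim n st _).mpr ⟨q, hq, Or.inl rfl⟩)
      · exact h _ ((zt_mem_elim n st _).mpr ⟨q, hq, Or.inr rfl⟩)

theorem zt_fold (I : ℕ → Prop) (y : ℕ → ℝ) (hM : Model I y) :
    ∀ (l : List ℕ) (st : List Pol), (∀ n ∈ l, I n) → (∀ q ∈ st, ∀ i ∈ letters q, I i) →
    ((∀ q ∈ st, pv y q = 0) ↔
      ∀ q ∈ l.foldl (fun st n => bif n == 0 then st else elim n st) st, pv y q = 0) ∧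
    (∀ q ∈ l.foldl (fun st n => bif n == 0 then st else elim n st) st, ∀ i ∈ letters q,
      i ≠ 0 → i ∉ l ∧ ∃ q' ∈ st, i ∈ letters q') := by
  intro l
  induction l with
  | nil =>
    intro st _ hst
    refine ⟨Iff.rfl, fun q hq i hi _ => ⟨List.not_mem_nil, q, hq, hi⟩⟩
  | cons n l ih =>
    intro st hl hst
    rw [List.foldl_cons]
    by_cases hn : n = 0
    · subst hn
      rw [show ((0 : ℕ) == 0) = true from rfl, cond_true]
      obtain ⟨i2, i3⟩ := ih st (fun m hm => hl m (List.mem_cons_of_mem _ hm)) hst
      refine ⟨i2, fun q hq i hi hi0 => ?_⟩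
      obtain ⟨j1, j2⟩ := i3 q hq i hi hi0
      refine ⟨?_, j2⟩
      rw [List.mem_cons]
      rintro (h | h)
      · exact hi0 h
      · exact j1 h
    · rw [show (n == 0) = false by simpa using hn, cond_false]
      obtain ⟨e1, e2, e3⟩ := zt_elim I y n hM.zero hn (hM.ind n hn (hl n List.mem_cons_self))
        (hM.sq n hn (hl n List.mem_cons_self)) st hst
      obtain ⟨i2, i3⟩ := ih (elim n st) (fun m hm => hl m (List.mem_cons_of_mem _ hm)) e1
      refine ⟨e2.trans i2, fun q hq i hi hi0 => ?_⟩
      obtain ⟨j1, q', hq', hiq'⟩ := i3 q hq i hi hi0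
      rcases e3 q' hq' i hiq' with ⟨k1, k2⟩ | k
      · refine ⟨?_, k2⟩
        rw [List.mem_cons]
        rintro (h | h)
        · exact k1 h
        · exact j1 h
      · exact absurd k hi0

open Polynomial in
/-- the polynomial of a list in the letter `0` -/
noncomputable def pol (q : Pol) : Polynomial ℤ :=
  (q.map (fun m => (C m.1 * X ^ m.2.length : Polynomial ℤ))).sum

theorem pol_nil : pol [] = 0 := rfl

open Polynomial in
theorem pol_cons (m : ℤ × List ℕ) (q : Pol) : pol (m :: q) = C m.1 * X ^ m.2.length + pol q := by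
  simp [pol]

theorem wv_zero (y : ℕ → ℝ) (w : List ℕ) (h : ∀ i ∈ w, i = 0) : wv y w = y 0 ^ w.length := by
  induction w with
  | nil => simp [wv]
  | cons a w ih =>
    rw [wv_cons, ih (fun i hi => h i (List.mem_cons_of_mem _ hi)), h a List.mem_cons_self,
      List.length_cons, pow_succ]
    ring

theorem aeval_pol (y : ℕ → ℝ) (q : Pol) (h : ∀ i ∈ letters q, i = 0) :
    Polynomial.aeval (y 0) (pol q) = pv y q := by
  induction q with
  | nil => simp [pol_nil, pv]
  | cons m q ih =>
    have h1 : ∀ i ∈ m.2, i = 0 := fun i hi => h i (by simp [letters]; left; exact hi)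
    have h2 : ∀ i ∈ letters q, i = 0 := fun i hi => h i (by
      simp only [letters, List.flatMap_cons, List.mem_append] at hi ⊢
      right; exact hi)
    rw [pol_cons, map_add, ih h2, pv_cons, wv_zero y m.2 h1]
    simp

theorem coeff_pol (q : Pol) (k : ℕ) : (pol q).coeff k = cf k q := by
  induction q with
  | nil => simp [pol_nil, cf]
  | cons m q ih =>
    rw [pol_cons, Polynomial.coeff_add, ih, Polynomial.coeff_C_mul_X_pow]
    unfold cf
    by_cases h : k = m.2.length
    · subst h
      rw [if_pos rfl, List.filter_cons_of_pos (by simp), List.map_cons, List.sum_cons]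
    · rw [if_neg h, List.filter_cons_of_neg (by simpa using fun e => h e.symm), zero_add]

theorem z0_iff (y : ℕ → ℝ) (htr : Transcendental ℤ (y 0)) (q : Pol)
    (h : ∀ i ∈ letters q, i = 0) : z0 q = true ↔ pv y q = 0 := by
  rw [← aeval_pol y q h]
  have h1 : Polynomial.aeval (y 0) (pol q) = 0 ↔ pol q = 0 := by
    constructor
    · intro h0
      exact (transcendental_iff.1 htr) _ h0
    · intro h0; rw [h0, map_zero]
  rw [h1]
  unfold z0
  rw [List.all_eq_true]
  constructor
  · intro h2
    ext k
    rw [coeff_pol, Polynomial.coeff_zero]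
    by_cases hk : ∃ m ∈ q, m.2.length = k
    · obtain ⟨m, hm, rfl⟩ := hk
      simpa using h2 m hm
    · unfold cf
      rw [List.filter_eq_nil_iff.2]
      · rfl
      · intro m hm hmk
        exact hk ⟨m, hm, by simpa using hmk⟩
  · intro h2 m _
    rw [decide_eq_true_iff, ← coeff_pol, h2, Polynomial.coeff_zero]

/-- correctness of the zero test in every model -/
theorem zt_iff (I : ℕ → Prop) (y : ℕ → ℝ) (hM : Model I y) (p : Pol) (hp : LettersIn I p) :
    zt p = true ↔ pv y p = 0 := by
  have hp' : ∀ i ∈ letters p, I i := by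
    intro i hi
    obtain ⟨m, hm, him⟩ := List.mem_flatMap.mp hi
    exact hp m hm i him
  obtain ⟨a2, a3⟩ := zt_fold I y hM (letters p) [p] hp' (by
    intro q hq i hi
    rw [List.mem_singleton] at hq
    subst hq
    exact hp' i hi)
  have hs1 : ∀ q ∈ stl p, ∀ i ∈ letters q, i = 0 := by
    intro q hq i hi
    by_contra hne
    obtain ⟨b1, q', hq', b2⟩ := a3 q hq i hi hne
    rw [List.mem_singleton] at hq'
    subst hq'
    exact b1 b2
  unfold zt
  rw [List.all_eq_true]
  constructor
  · intro h
    apply a2.mpr _ p (List.mem_singleton.mpr rfl)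
    intro q hq
    exact (z0_iff y hM.tr q (hs1 q hq)).1 (h q hq)
  · intro h q hq
    exact (z0_iff y hM.tr q (hs1 q hq)).2 (a2.mp (by
      intro q' hq'
      rw [List.mem_singleton] at hq'
      rw [hq', h]) q hq)

/-! ### computability -/

open Pool.Agent.Helper566.FD.J9 (comp_elim_flatMap comp_elim_filter comp_elim_count)
open Pool.Agent.Helper566.FD.J10 (j10_comp_foldl j10_comp_all j10_comp_flatMap j10_comp_sum)

theorem comp_G : Computable G := by
  unfold G
  refine Computable.nat_rec (f := fun k : ℕ => k) (g := fun _ => ([(1, [0])] : Pol))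
    (h := fun _ p => mulP p.2 p.2 ++ [(-2, [])]) Computable.id (Computable.const _) ?_
  have h2 : Computable (fun x : ℕ × (ℕ × Pol) => x.2.2) := Computable.snd.comp Computable.snd
  exact Computable.list_append.comp (comp_poly.1.comp h2 h2) (Computable.const _)

theorem comp_DD : Computable DD := by
  unfold DD
  have hm : Computable (fun i : ℕ => i % 2 == 1) :=
    (Primrec.beq (α := ℕ)).to_comp.comp ((Primrec.nat_mod.comp Primrec.id (Primrec.const 2)).to_comp)
      (Computable.const 1)
  have hd : Primrec (fun i : ℕ => i / 2) := Primrec.nat_div.comp Primrec.id (Primrec.const 2)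
  refine Computable.cond hm ?_ ?_
  · exact comp_G.comp ((Primrec.nat_mul.comp (Primrec.const 3) hd).to_comp)
  · exact comp_poly.2.1.comp (comp_G.comp ((Primrec.nat_mul.comp (Primrec.const 3)
      (Primrec.nat_sub.comp hd (Primrec.const 1))).to_comp))

theorem comp_red : Computable₂ (fun (n : ℕ) (m : ℤ × List ℕ) => red n m) := by
  have hn : Computable (fun q : ℕ × (ℤ × List ℕ) => q.1) := Computable.fst
  have hm1 : Computable (fun q : ℕ × (ℤ × List ℕ) => q.2.1) := Computable.fst.comp Computable.snd
  have hm2 : Computable (fun q : ℕ × (ℤ × List ℕ) => q.2.2) := Computable.snd.comp Computable.snd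
  have h1 : Computable (fun q : ℕ × (ℤ × List ℕ) => q.2.2.filter (fun i => decide (i ≠ q.1))) :=
    comp_elim_filter.comp hn hm2
  have h2 : Computable (fun q : ℕ × (ℤ × List ℕ) =>
      [(q.2.1, q.2.2.filter (fun i => decide (i ≠ q.1)))]) :=
    Computable.list_cons.comp (Computable.pair hm1 h1) (Computable.const _)
  have h3 : Computable (fun q : ℕ × (ℤ × List ℕ) => q.2.2.count q.1 / 2) :=
    (Primrec.nat_div.to_comp).comp (comp_elim_count.comp hn hm2) (Computable.const 2)
  have h4 : Computable (fun q : ℕ × (ℤ × List ℕ) => powP (DD q.1) (q.2.2.count q.1 / 2)) :=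
    comp_poly.2.2.1.comp (comp_DD.comp hn) h3
  exact comp_poly.1.comp h2 h4

theorem comp_par : Computable (fun q : (ℕ × Pol) × (ℤ × List ℕ) =>
    decide (q.2.2.count q.1.1 % 2 = 0)) := Pool.Agent.Helper566.FD.J9.comp_elim_par

theorem comp_partA : Computable₂ (fun (n : ℕ) (p : Pol) => partA n p) := by
  have hr : Computable (fun q : (ℕ × Pol) × (ℤ × List ℕ) => red q.1.1 q.2) :=
    comp_red.comp (Computable.fst.comp Computable.fst) Computable.snd
  have h := comp_elim_flatMap (l := fun q : ℕ × Pol => q.2)
    (f := fun q m => if m.2.count q.1 % 2 = 0 then red q.1 m else []) Computable.snd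
    ((Computable.cond comp_par hr (Computable.const [])).of_eq fun q => by
      by_cases hq : q.2.2.count q.1.1 % 2 = 0 <;> simp [hq])
  exact h

theorem comp_partB : Computable₂ (fun (n : ℕ) (p : Pol) => partB n p) := by
  have hr : Computable (fun q : (ℕ × Pol) × (ℤ × List ℕ) => red q.1.1 q.2) :=
    comp_red.comp (Computable.fst.comp Computable.fst) Computable.snd
  have h := comp_elim_flatMap (l := fun q : ℕ × Pol => q.2)
    (f := fun q m => if m.2.count q.1 % 2 = 0 then [] else red q.1 m) Computable.snd
    ((Computable.cond comp_par (Computable.const []) hr).of_eq fun q => by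
      by_cases hq : q.2.2.count q.1.1 % 2 = 0 <;> simp [hq])
  exact h

theorem comp_elim : Computable₂ elim := by
  have h1 : Computable (fun q : (ℕ × List Pol) × Pol => partA q.1.1 q.2) :=
    comp_partA.comp (Computable.fst.comp Computable.fst) Computable.snd
  have h2 : Computable (fun q : (ℕ × List Pol) × Pol => partB q.1.1 q.2) :=
    comp_partB.comp (Computable.fst.comp Computable.fst) Computable.snd
  have h3 : Computable (fun q : (ℕ × List Pol) × Pol => [partA q.1.1 q.2, partB q.1.1 q.2]) :=
    Computable.list_cons.comp h1 (Computable.list_cons.comp h2 (Computable.const _))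
  exact comp_elim_flatMap (l := fun q : ℕ × List Pol => q.2)
    (f := fun q p => [partA q.1 p, partB q.1 p]) Computable.snd h3

theorem comp_stl : Computable stl := by
  have hL : Computable letters := comp_poly.2.2.2
  unfold stl
  refine j10_comp_foldl (f := letters) (g := fun p => [p])
    (h := fun _ s => bif s.2 == 0 then s.1 else elim s.2 s.1) hL ?_ ?_
  · exact Computable.list_cons.comp Computable.id (Computable.const [])
  · refine Computable.cond ((Primrec.beq (α := ℕ)).to_comp.comp
      (Computable.snd.comp Computable.snd) (Computable.const 0))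
      (Computable.fst.comp Computable.snd) ?_
    exact comp_elim.comp (Computable.snd.comp Computable.snd) (Computable.fst.comp Computable.snd)

theorem prim_filt : Primrec₂ (fun (k : ℕ) (q : Pol) => q.filter (fun m' => m'.2.length == k)) := by
  have h : Primrec (fun a : ℕ × Pol =>
      a.2.filterMap (fun m => if m.2.length = a.1 then some m else none)) := by
    refine Primrec.listFilterMap Primrec.snd ?_
    refine Primrec.ite (Primrec.eq.comp ?_ (Primrec.fst.comp Primrec.fst))
      (Primrec.option_some.comp Primrec.snd) (Primrec.const _)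
    exact Primrec.list_length.comp (Primrec.snd.comp Primrec.snd)
  refine h.of_eq fun a => ?_
  show _ = List.filter (fun m' => m'.2.length == a.1) a.2
  rw [← List.filterMap_eq_filter]
  congr 1
  funext m
  by_cases hi : m.2.length = a.1 <;> simp [hi, Option.guard]

theorem comp_cf : Computable₂ cf := by
  have h := j10_comp_sum.comp prim_filt.to_comp
  exact h

theorem comp_z0 : Computable z0 := by
  have h : Computable (fun q : Pol => q.foldl (fun s m => s && decide (cf m.2.length q = 0)) true) := by
    refine j10_comp_foldl (f := fun q : Pol => q) (g := fun _ => true)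
      (h := fun q s => s.1 && decide (cf s.2.2.length q = 0)) Computable.id (Computable.const _) ?_
    refine (Primrec.and.to_comp).comp (Computable.fst.comp Computable.snd) ?_
    refine ((Primrec.eq (α := ℤ)).decide.to_comp).comp ?_ (Computable.const 0)
    refine comp_cf.comp ?_ Computable.fst
    exact Computable.list_length.comp (Computable.snd.comp (Computable.snd.comp Computable.snd))
  refine h.of_eq fun q => ?_
  exact (Pool.Agent.Helper566.FD.J10.j10_all_eq (fun m => decide (cf m.2.length q = 0)) q).symm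

theorem comp_zt : Computable zt := by
  unfold zt
  exact j10_comp_all comp_z0 comp_stl

end Pool.Agent.H269R3.CF
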