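import Mathlib
import Pool.Agent.H269R3.CF.Zt
import Pool.Agent.Helper566.FD.J11

/-! Real points realising all sign patterns of the iterates `g_k`, and the resulting models. -/

set_option autoImplicit false

namespace Pool.Agent.H269R3.CF

open Pool.Agent.Helper566.FD (Pol wv pv mulP negP powP letters LettersIn pv_append pv_negP pv_mulP
  pv_powP comp_poly)
open Pool.Agent.Helper566.FD.J4 (pv_nil pv_cons wv_append wv_cons pv_mono_mul wv_split)

/-- iterates of `x ↦ x² - 2` -/
noncomputable def gr (k : ℕ) (x : ℝ) : ℝ := Nat.rec x (fun _ v => v * v - 2) k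

theorem gr_zero (x : ℝ) : gr 0 x = x := rfl
theorem gr_succ (k : ℕ) (x : ℝ) : gr (k + 1) x = gr k x * gr k x - 2 := rfl

theorem gr_succ' (k : ℕ) (x : ℝ) : gr (k + 1) x = gr k (x * x - 2) := by
  induction k with
  | zero => rfl
  | succ k ih => rw [gr_succ, ih, gr_succ]

theorem pv_G (y : ℕ → ℝ) (k : ℕ) : pv y (G k) = gr k (y 0) := by
  induction k with
  | zero => simp [G_zero, pv, wv, gr_zero]
  | succ k ih =>
    rw [G_succ, pv_append, pv_mulP, ih, gr_succ]
    simp [pv, wv]
    ring

/-- sign of a bit -/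
def sr (b : Bool) : ℝ := if b then 1 else -1

theorem sr_true : sr true = 1 := rfl
theorem sr_false : sr false = -1 := rfl
theorem sr_sq (b : Bool) : sr b * sr b = 1 := by cases b <;> norm_num [sr]

theorem sr_conflict {a b : Bool} {x : ℝ} (h1 : 0 < sr a * x) (h2 : 0 < sr b * x) : a = b := by
  cases a <;> cases b
  · rfl
  · rw [sr_false] at h1; rw [sr_true] at h2; linarith
  · rw [sr_true] at h1; rw [sr_false] at h2; linarith
  · rfl

theorem sr_not_neg {a : Bool} {x : ℝ} (h : 0 < sr (!a) * x) : sr a * x < 0 := by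
  cases a
  · rw [Bool.not_false, sr_true] at h; rw [sr_false]; linarith
  · rw [Bool.not_true, sr_false] at h; rw [sr_true]; linarith

theorem cont_gr (k : ℕ) : Continuous (gr k) := by
  induction k with
  | zero => exact continuous_id
  | succ k ih =>
    have : gr (k + 1) = fun x => gr k x * gr k x - 2 := by
      funext x; exact gr_succ k x
    rw [this]
    fun_prop

/-- every finite sign pattern is realised -/
theorem pattern (N : ℕ) : ∀ σ : ℕ → Bool, ∃ x : ℝ, |x| < 2 ∧ ∀ k ≤ N, 0 < sr (σ k) * gr k x := by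
  induction N with
  | zero =>
    intro σ
    refine ⟨sr (σ 0), ?_, ?_⟩
    · cases σ 0 <;> norm_num [sr]
    · intro k hk
      obtain rfl : k = 0 := by omega
      rw [gr_zero, sr_sq]
      norm_num
  | succ N ih =>
    intro σ
    obtain ⟨y, hy, h⟩ := ih (fun k => σ (k + 1))
    rw [abs_lt] at hy
    have h0 : 0 < 2 + y := by linarith
    have hs : 0 < Real.sqrt (2 + y) := Real.sqrt_pos.2 h0
    have hs2 : Real.sqrt (2 + y) < 2 := by
      rw [Real.sqrt_lt' (by norm_num)]; linarith
    have hsq : Real.sqrt (2 + y) * Real.sqrt (2 + y) = 2 + y := Real.mul_self_sqrt h0.le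
    refine ⟨sr (σ 0) * Real.sqrt (2 + y), ?_, ?_⟩
    · rw [abs_mul, abs_of_pos hs]
      have : |sr (σ 0)| = 1 := by cases σ 0 <;> norm_num [sr]
      rw [this, one_mul]
      exact hs2
    · intro k hk
      cases k with
      | zero =>
        rw [gr_zero, ← mul_assoc, sr_sq, one_mul]
        exact hs
      | succ k =>
        rw [gr_succ']
        have e : sr (σ 0) * Real.sqrt (2 + y) * (sr (σ 0) * Real.sqrt (2 + y)) - 2 = y := by
          calc _ = (sr (σ 0) * sr (σ 0)) * (Real.sqrt (2 + y) * Real.sqrt (2 + y)) - 2 := by ring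
            _ = y := by rw [sr_sq, hsq]; ring
        rw [e]
        exact h k (by omega)

/-- every infinite sign pattern is weakly realised -/
theorem pattern_inf (σ : ℕ → Bool) : ∃ x : ℝ, ∀ k, 0 ≤ sr (σ k) * gr k x := by
  let C : ℕ → Set ℝ := fun N => {x | x ∈ Set.Icc (-2 : ℝ) 2 ∧ ∀ k ≤ N, 0 ≤ sr (σ k) * gr k x}
  have hcl : ∀ N, IsClosed (C N) := by
    intro N
    have : C N = Set.Icc (-2 : ℝ) 2 ∩ ⋂ k, ⋂ (_ : k ≤ N), {x | 0 ≤ sr (σ k) * gr k x} := by
      ext x
      simp [C]
    rw [this]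
    refine isClosed_Icc.inter (isClosed_iInter fun k => isClosed_iInter fun _ => ?_)
    exact isClosed_le continuous_const ((cont_gr k).const_mul _)
  have hne : (⋂ N, C N).Nonempty := by
    refine IsCompact.nonempty_iInter_of_sequence_nonempty_isCompact_isClosed C ?_ ?_ ?_ hcl
    · intro N x hx
      exact ⟨hx.1, fun k hk => hx.2 k (by omega)⟩
    · intro N
      obtain ⟨x, hx, h⟩ := pattern N σ
      rw [abs_lt] at hx
      exact ⟨x, ⟨hx.1.le, hx.2.le⟩, fun k hk => (h k hk).le⟩
    · exact isCompact_Icc.of_isClosed_subset (hcl 0) (fun x hx => hx.1)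
  obtain ⟨x, hx⟩ := hne
  refine ⟨x, fun k => ?_⟩
  exact (Set.mem_iInter.1 hx k).2 k le_rfl

theorem pol_G_ne (k : ℕ) : pol (G k) ≠ 0 := by
  intro h
  have h1 := aeval_pol (fun _ => (2 : ℝ)) (G k) (letters_G k)
  rw [h, map_zero, pv_G] at h1
  have h2 : ∀ k, gr k 2 = 2 := by
    intro k
    induction k with
    | zero => rfl
    | succ k ih => rw [gr_succ, ih]; norm_num
  rw [h2] at h1
  norm_num at h1

theorem gr_ne_zero (x : ℝ) (hx : Transcendental ℤ x) (k : ℕ) : gr k x ≠ 0 := by
  intro h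
  have h1 := aeval_pol (fun _ => x) (G k) (letters_G k)
  rw [pv_G] at h1
  exact pol_G_ne k ((transcendental_iff.1 hx) _ (h1.trans h))

/-- every sign pattern on the multiples of three is realised by a transcendental number -/
theorem exists_tr (ε : ℕ → Bool) :
    ∃ x : ℝ, Transcendental ℤ x ∧ ∀ n, 0 < sr (ε n) * gr (3 * n) x := by
  let σ : (ℕ → Bool) → ℕ → Bool := fun β k => if k % 3 = 0 then ε (k / 3) else β (k / 3)
  choose τ hτ using fun β => pattern_inf (σ β)
  have hinj : Function.Injective τ := by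
    intro β β' hb
    funext n
    by_contra hne
    have key : ∀ j, (j = 1 ∨ j = 2) → gr (3 * n + j) (τ β) = 0 := by
      intro j hj
      have h1 := hτ β (3 * n + j)
      have h2 := hτ β' (3 * n + j)
      rw [← hb] at h2
      have e1 : σ β (3 * n + j) = β n := by
        show (if (3 * n + j) % 3 = 0 then _ else _) = _
        rw [if_neg (by omega), show (3 * n + j) / 3 = n by omega]
      have e2 : σ β' (3 * n + j) = β' n := by
        show (if (3 * n + j) % 3 = 0 then _ else _) = _
        rw [if_neg (by omega), show (3 * n + j) / 3 = n by omega]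
      rw [e1] at h1
      rw [e2] at h2
      cases hb1 : β n <;> cases hb2 : β' n <;> simp_all [sr] <;> linarith
    have k1 := key 1 (Or.inl rfl)
    have k2 := key 2 (Or.inr rfl)
    rw [show 3 * n + 2 = (3 * n + 1) + 1 by ring, gr_succ, k1] at k2
    norm_num at k2
  have hunc : ¬ (Set.range τ).Countable := by
    intro h
    have h2 : (Set.univ : Set (ℕ → Bool)).Countable := by
      rw [← Set.preimage_range τ]
      exact h.preimage hinj
    have h3 : Countable (ℕ → Bool) := Set.countable_univ_iff.1 h2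
    have h4 := Cardinal.mk_le_aleph0_iff.2 h3
    have h5 : Cardinal.mk (ℕ → Bool) = Cardinal.continuum := by
      rw [← Cardinal.power_def, Cardinal.mk_bool, Cardinal.mk_nat, Cardinal.two_power_aleph0]
    rw [h5] at h4
    exact absurd h4 (not_le.2 Cardinal.aleph0_lt_continuum)
  obtain ⟨β, hβ⟩ : ∃ β, Transcendental ℤ (τ β) := by
    by_contra hcon
    push Not at hcon
    apply hunc
    refine (Algebraic.countable ℤ ℝ).mono ?_
    rintro _ ⟨β, rfl⟩
    have := hcon β
    unfold Transcendental at this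
    rw [not_not] at this
    exact this
  refine ⟨τ β, hβ, fun n => lt_of_le_of_ne ?_ ?_⟩
  · have h1 := hτ β (3 * n)
    have e1 : σ β (3 * n) = ε n := by
      show (if (3 * n) % 3 = 0 then _ else _) = _
      rw [if_pos (by omega), show (3 * n) / 3 = n by omega]
    rw [e1] at h1
    exact h1
  · have h2 := gr_ne_zero (τ β) hβ (3 * n)
    have h3 : sr (ε n) ≠ 0 := by cases ε n <;> norm_num [sr]
    exact (mul_ne_zero h3 h2).symm

/-- number of a letter -/
def nn (i : ℕ) : ℕ := (i - 1) / 2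
/-- sign of a letter -/
def ss (i : ℕ) : Bool := i % 2 == 1

theorem pv_DD (y : ℕ → ℝ) (i : ℕ) (hi : i ≠ 0) :
    pv y (DD i) = sr (ss i) * gr (3 * nn i) (y 0) := by
  unfold DD ss nn
  by_cases h : i % 2 = 1
  · have : (i % 2 == 1) = true := by simpa using h
    rw [this, cond_true, pv_G, sr_true, one_mul, show (i - 1) / 2 = i / 2 by omega]
  · have : (i % 2 == 1) = false := by simpa using h
    rw [this, cond_false, pv_negP, pv_G, sr_false, show (i - 1) / 2 = i / 2 - 1 by omega]
    ring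

theorem letter_inj {i j : ℕ} (hi : i ≠ 0) (hj : j ≠ 0) (h1 : nn i = nn j) (h2 : ss i = ss j) :
    i = j := by
  unfold nn at h1
  unfold ss at h2
  by_cases h : i % 2 = 1
  · have : (i % 2 == 1) = true := by simpa using h
    rw [this] at h2
    have : j % 2 = 1 := by simpa using h2.symm
    omega
  · have : (i % 2 == 1) = false := by simpa using h
    rw [this] at h2
    have : ¬ (j % 2 = 1) := by simpa using h2.symm
    omega

/-- values of the letters -/
noncomputable def yy (τ : ℝ) (i : ℕ) : ℝ :=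
  if i = 0 then τ else Real.sqrt (sr (ss i) * gr (3 * nn i) τ)

theorem yy_zero (τ : ℝ) : yy τ 0 = τ := if_pos rfl

theorem yy_ne (τ : ℝ) (i : ℕ) (hi : i ≠ 0) :
    yy τ i = Real.sqrt (sr (ss i) * gr (3 * nn i) τ) := if_neg hi

theorem gr_mem (K : Subfield ℝ) (τ : ℝ) (h : τ ∈ K) (k : ℕ) : gr k τ ∈ K := by
  induction k with
  | zero => exact h
  | succ k ih =>
    rw [gr_succ]
    exact sub_mem (mul_mem ih ih) (ofNat_mem _ 2)

theorem sr_mem (K : Subfield ℝ) (b : Bool) : sr b ∈ K := by
  cases b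
  · rw [sr_false]; exact neg_mem (one_mem _)
  · rw [sr_true]; exact one_mem _

theorem yy_sq_mem (K : Subfield ℝ) (τ : ℝ) (h : τ ∈ K) (i : ℕ) : yy τ i ^ 2 ∈ K := by
  by_cases hi : i = 0
  · subst hi
    rw [yy_zero]
    exact pow_mem h 2
  · rw [yy_ne τ i hi]
    by_cases h0 : 0 ≤ sr (ss i) * gr (3 * nn i) τ
    · rw [Real.sq_sqrt h0]
      exact mul_mem (sr_mem _ _) (gr_mem _ _ h _)
    · rw [Real.sqrt_eq_zero_of_nonpos (le_of_not_ge h0)]
      exact pow_mem (zero_mem _) 2

/-- a product of distinct labels is not in the ground field -/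
theorem prod_notMem (τ : ℝ) (hτ : Transcendental ℤ τ) (T : Finset ℕ) (hne : T.Nonempty)
    (h0 : ∀ i ∈ T, i ≠ 0) (hpos : ∀ i ∈ T, 0 < sr (ss i) * gr (3 * nn i) τ) :
    ∏ i ∈ T, yy τ i ∉ Subfield.closure {τ} := by
  intro hmem
  have e0 : ({τ} : Set ℝ) = (fun _ : ℕ => τ) '' {n | n = 0} := by
    ext x; simp
  rw [e0, Pool.Agent.Helper566.FD.mem_closure (fun n => n = 0)] at hmem
  obtain ⟨p, q, hp, hq, h⟩ := hmem
  have hlp : ∀ i ∈ letters p, i = 0 := by
    intro i hi
    obtain ⟨m, hm, him⟩ := List.mem_flatMap.mp hi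
    exact hp m hm i him
  have hlq : ∀ i ∈ letters q, i = 0 := by
    intro i hi
    obtain ⟨m, hm, him⟩ := List.mem_flatMap.mp hi
    exact hq m hm i him
  -- the product is nonzero
  have hprod : ∏ i ∈ T, yy τ i ≠ 0 := by
    rw [Finset.prod_ne_zero_iff]
    intro i hi
    rw [yy_ne τ i (h0 i hi)]
    exact (Real.sqrt_pos.2 (hpos i hi)).ne'
  have hq0 : pv (fun _ => τ) q ≠ 0 := by
    intro hq0
    rw [hq0, div_zero] at h
    exact hprod h
  have hpolq : pol q ≠ 0 := by
    intro hz
    have := aeval_pol (fun _ => τ) q hlq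
    rw [hz, map_zero] at this
    exact hq0 this.symm
  -- the polynomial identity
  let R : Polynomial ℤ := ∏ i ∈ T, pol (DD i)
  have hR : ∀ x : ℝ, Polynomial.aeval x R = ∏ i ∈ T, (sr (ss i) * gr (3 * nn i) x) := by
    intro x
    rw [map_prod]
    refine Finset.prod_congr rfl fun i hi => ?_
    rw [← pv_DD (fun _ => x) i (h0 i hi)]
    exact aeval_pol (fun _ => x) (DD i) (letters_DD i)
  have hid : R * pol q ^ 2 = pol p ^ 2 := by
    have h1 : Polynomial.aeval τ (R * pol q ^ 2 - pol p ^ 2) = 0 := by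
      rw [map_sub, map_mul, map_pow, map_pow, hR, aeval_pol (fun _ => τ) q hlq,
        aeval_pol (fun _ => τ) p hlp]
      have h2 : ∏ i ∈ T, (sr (ss i) * gr (3 * nn i) τ) = (∏ i ∈ T, yy τ i) ^ 2 := by
        rw [← Finset.prod_pow]
        refine Finset.prod_congr rfl fun i hi => ?_
        rw [yy_ne τ i (h0 i hi), Real.sq_sqrt (hpos i hi).le]
      rw [h2, h, div_pow, div_mul_cancel₀ _ (pow_ne_zero 2 hq0), sub_self]
    have h3 := (transcendental_iff.1 hτ) _ h1
    exact sub_eq_zero.1 h3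
  -- a sign pattern with negative product
  obtain ⟨i0, hi0⟩ := hne
  classical
  -- distinct letters of T have distinct numbers
  have hinj : ∀ i ∈ T, ∀ j ∈ T, nn i = nn j → i = j := by
    intro i hi j hj hij
    refine letter_inj (h0 i hi) (h0 j hj) hij ?_
    have h1 := hpos i hi
    have h2 := hpos j hj
    rw [hij] at h1
    exact sr_conflict h1 h2
  let σ : ℕ → Bool := fun k => if k = 3 * nn i0 then !(ss i0) else
    if h : ∃ i ∈ T, k = 3 * nn i then ss h.choose else true
  obtain ⟨M, hM⟩ : ∃ M, ∀ i ∈ T, 3 * nn i ≤ M := by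
    refine ⟨∑ i ∈ T, 3 * nn i, fun i hi => ?_⟩
    exact Finset.single_le_sum (f := fun i => 3 * nn i) (fun _ _ => Nat.zero_le _) hi
  obtain ⟨x0, -, hx0⟩ := pattern M σ
  have hσ : ∀ i ∈ T, i ≠ i0 → σ (3 * nn i) = ss i := by
    intro i hi hne
    have h1 : ¬ (3 * nn i = 3 * nn i0) := by
      intro h2
      exact hne (hinj i hi i0 hi0 (by omega))
    have h2 : ∃ j ∈ T, 3 * nn i = 3 * nn j := ⟨i, hi, rfl⟩
    show (if 3 * nn i = 3 * nn i0 then _ else if h : ∃ j ∈ T, 3 * nn i = 3 * nn j then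
      ss h.choose else true) = _
    rw [if_neg h1, dif_pos h2]
    have h3 := h2.choose_spec
    have h4 : i = h2.choose := hinj i hi _ h3.1 (by omega)
    rw [← h4]
  have hσ0 : σ (3 * nn i0) = !(ss i0) := if_pos rfl
  have hneg : ∏ i ∈ T, (sr (ss i) * gr (3 * nn i) x0) < 0 := by
    rw [← Finset.mul_prod_erase T _ hi0]
    refine mul_neg_of_neg_of_pos ?_ (Finset.prod_pos fun i hi => ?_)
    · have h1 := hx0 (3 * nn i0) (hM i0 hi0)
      rw [hσ0] at h1
      exact sr_not_neg h1
    · rw [Finset.mem_erase] at hi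
      have h1 := hx0 (3 * nn i) (hM i hi.2)
      rw [hσ i hi.2 hi.1] at h1
      exact h1
  -- the set where the product is negative is open and nonempty
  have hopen : IsOpen {x : ℝ | ∏ i ∈ T, (sr (ss i) * gr (3 * nn i) x) < 0} := by
    refine isOpen_lt ?_ continuous_const
    exact continuous_finset_prod _ fun i _ => (cont_gr _).const_mul _
  have hinf : {x : ℝ | ∏ i ∈ T, (sr (ss i) * gr (3 * nn i) x) < 0}.Infinite :=
    infinite_of_mem_nhds x0 (hopen.mem_nhds hneg)
  -- so the denominator vanishes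
  have hroot : ∀ x ∈ {x : ℝ | ∏ i ∈ T, (sr (ss i) * gr (3 * nn i) x) < 0},
      ((pol q).map (algebraMap ℤ ℝ)).IsRoot x := by
    intro x hx
    have h1 : Polynomial.aeval x R * (Polynomial.aeval x (pol q)) ^ 2 =
        (Polynomial.aeval x (pol p)) ^ 2 := by
      rw [← map_pow, ← map_pow, ← map_mul, hid]
    rw [hR] at h1
    have hx' : ∏ i ∈ T, (sr (ss i) * gr (3 * nn i) x) < 0 := hx
    have h2 : (Polynomial.aeval x (pol q)) ^ 2 = 0 := by
      by_contra hne
      have hpos2 : 0 < (Polynomial.aeval x (pol q)) ^ 2 :=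
        lt_of_le_of_ne (sq_nonneg _) (Ne.symm hne)
      have := mul_neg_of_neg_of_pos hx' hpos2
      rw [h1] at this
      exact absurd this (not_lt.2 (sq_nonneg _))
    rw [Polynomial.IsRoot, Polynomial.eval_map_algebraMap]
    exact pow_eq_zero_iff (two_ne_zero) |>.1 h2
  have hz : (pol q).map (algebraMap ℤ ℝ) = 0 :=
    Polynomial.eq_zero_of_infinite_isRoot _ (hinf.mono hroot)
  apply hpolq
  exact (Polynomial.map_eq_zero_iff (RingHom.injective_int _)).1 hz

/-- the model attached to a transcendental number -/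
theorem model (X : ℕ → Bool → Prop) (ε : ℕ → Bool) (hX : ∀ n s, X n s → ε n = s) (τ : ℝ)
    (hτ : Transcendental ℤ τ) (hs : ∀ n, 0 < sr (ε n) * gr (3 * n) τ) :
    Model (fun i => i = 0 ∨ X (nn i) (ss i)) (yy τ) := by
  have hpos : ∀ i, i ≠ 0 → (i = 0 ∨ X (nn i) (ss i)) → 0 < sr (ss i) * gr (3 * nn i) τ := by
    intro i h0 hi
    rcases hi with hi | hi
    · exact absurd hi h0
    · rw [← hX _ _ hi]
      exact hs _
  constructor
  · rw [yy_zero]; exact hτ
  · exact Or.inl rfl
  · intro i h0 hi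
    rw [pv_DD _ i h0, yy_zero, yy_ne τ i h0, Real.sq_sqrt (hpos i h0 hi).le]
  · intro i h0 hi hmem
    have hk := Pool.Agent.Helper566.FD.kummer (Subfield.closure {τ}) (yy τ)
      (yy_sq_mem _ τ (Subfield.subset_closure rfl))
      {m | m ≠ 0 ∧ (m = 0 ∨ X (nn m) (ss m))} (by
        intro T hT hne
        exact prod_notMem τ hτ T hne (fun i hi => (hT hi).1)
          (fun i hi => hpos i (hT hi).1 (hT hi).2))
    refine hk.1 i ⟨h0, hi⟩ ?_
    have hle : Subfield.closure (yy τ '' {m | (m = 0 ∨ X (nn m) (ss m)) ∧ m ≠ i}) ≤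
        Subfield.closure (((Subfield.closure {τ} : Subfield ℝ) : Set ℝ) ∪
          yy τ '' ({m | m ≠ 0 ∧ (m = 0 ∨ X (nn m) (ss m))} \ {i})) := by
      rw [Subfield.closure_le]
      rintro _ ⟨m, ⟨hm, hmi⟩, rfl⟩
      apply Subfield.subset_closure
      by_cases hm0 : m = 0
      · left
        rw [hm0, yy_zero]
        exact Subfield.subset_closure rfl
      · right
        exact ⟨m, ⟨⟨hm0, hm⟩, hmi⟩, rfl⟩
    exact hle hmem

end Pool.Agent.H269R3.CF
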