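import Mathlib
import Pool.Agent.H269R3.CF.Real
import Pool.Agent.Helper223.Numbering

/-! The computable copy of the field, and the diagonalisation. -/

set_option autoImplicit false

namespace Pool.Agent.H269R3.CF

open Pool.Agent.Helper566.FD (Pol wv pv mulP negP powP letters LettersIn pv_append pv_negP pv_mulP
  pv_powP comp_poly)
open Pool.Agent.Helper223 (exists_field_numbering)

section copyaux

theorem ec_foldl {α β σ : Type} [Primcodable α] [Primcodable β] [Primcodable σ]
    {f : α → List β} {g : α → σ} {h : α → σ × β → σ} (hf : Computable f)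
    (hg : Computable g) (hh : Computable₂ h) :
    Computable fun a => (f a).foldl (fun s b => h a (s, b)) (g a) := by
  have key : Computable fun a => Nat.rec (motive := fun _ => σ) (g a)
      (fun y IH => (Option.casesOn (motive := fun _ => σ) ((f a)[y]?) IH (fun b => h a (IH, b))))
      (f a).length := by
    refine Computable.nat_rec (Computable.list_length.comp hf) hg
      (h := fun a p => (Option.casesOn (motive := fun _ => σ) ((f a)[p.1]?) p.2 (fun b => h a (p.2, b)))) ?_
    refine Computable.option_casesOn (o := fun x : α × (ℕ × σ) => (f x.1)[x.2.1]?)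
      (f := fun x => x.2.2) (g := fun x b => h x.1 (x.2.2, b)) ?_ ?_ ?_
    · exact Computable.list_getElem?.comp (hf.comp Computable.fst)
        (Computable.fst.comp Computable.snd)
    · exact Computable.snd.comp Computable.snd
    · exact hh.comp (Computable.fst.comp Computable.fst)
        (Computable.pair (Computable.snd.comp (Computable.snd.comp Computable.fst)) Computable.snd)
  refine key.of_eq fun a => ?_
  have : ∀ n, n ≤ (f a).length → Nat.rec (motive := fun _ => σ) (g a)
      (fun y IH => (Option.casesOn (motive := fun _ => σ) ((f a)[y]?) IH (fun b => h a (IH, b))))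
      n = ((f a).take n).foldl (fun s b => h a (s, b)) (g a) := by
    intro n
    induction n with
    | zero => intro _; simp
    | succ n ih =>
      intro hn
      have hlt : n < (f a).length := hn
      rw [List.take_add_one]
      simp only [List.foldl_append]
      rw [← ih (le_of_lt hlt)]
      simp [List.getElem?_eq_getElem hlt]
  have h2 := this _ le_rfl
  rw [h2]
  simp

theorem ec_all {β : Type} [Primcodable β] {act : β → Bool} (h : Computable act) :
    Computable (fun w : List β => w.all act) := by
  have h1 := ec_foldl (f := fun w : List β => w) (g := fun _ => true)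
    (h := fun _ p => p.1 && act p.2) Computable.id (Computable.const _)
    ((Primrec.and.to_comp).comp (Computable.fst.comp Computable.snd)
      (h.comp (Computable.snd.comp Computable.snd)))
  refine h1.of_eq fun w => ?_
  have key : ∀ (w : List β) (b : Bool), w.foldl (fun s b => s && act b) b = (b && w.all act) := by
    intro w
    induction w with
    | nil => intro b; simp
    | cons a w ih => intro b; simp [ih, Bool.and_assoc]
  show w.foldl (fun s b => s && act b) true = w.all act
  rw [key]
  simp

/-- drop the monomials with inactive letters, decode the others -/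
def filtE (act : ℕ → Bool) (p : Pol) : Pol :=
  p.foldl (fun s m => cond (m.2.all act) (s ++ [(m.1, m.2.map (fun i => i.unpair.2))]) s) []

theorem comp_filtE {act : ℕ → Bool} (h : Computable act) : Computable (filtE act) := by
  unfold filtE
  have h0 : Primrec (fun w : List ℕ => w.map (fun i => i.unpair.2)) :=
    Primrec.list_map Primrec.id (Primrec.snd.comp (Primrec.unpair.comp Primrec.snd))
  refine ec_foldl (f := fun p : Pol => p) (g := fun _ => ([] : Pol))
    (h := fun _ (q : Pol × (ℤ × List ℕ)) => cond (q.2.2.all act)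
      (q.1 ++ [(q.2.1, q.2.2.map (fun i => i.unpair.2))]) q.1) Computable.id (Computable.const _) ?_
  have e1 : Computable (fun x : Pol × (Pol × (ℤ × List ℕ)) => x.2.1) :=
    Computable.fst.comp Computable.snd
  have e2 : Computable (fun x : Pol × (Pol × (ℤ × List ℕ)) => x.2.2.1) :=
    Computable.fst.comp (Computable.snd.comp Computable.snd)
  have e3 : Computable (fun x : Pol × (Pol × (ℤ × List ℕ)) => x.2.2.2) :=
    Computable.snd.comp (Computable.snd.comp Computable.snd)
  refine Computable.cond ((ec_all h).comp e3) ?_ e1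
  refine Computable.list_append.comp e1 ?_
  exact Computable.list_cons.comp (Computable.pair e2 (h0.to_comp.comp e3)) (Computable.const _)

/-- values of the coded letters -/
noncomputable def yE (g : ℕ → ℝ) (act : ℕ → Bool) (i : ℕ) : ℝ :=
  if act i = true then g i.unpair.2 else 0

theorem wv_yE (g : ℕ → ℝ) (act : ℕ → Bool) (w : List ℕ) : wv (yE g act) w =
    if w.all act = true then wv g (w.map (fun i => i.unpair.2)) else 0 := by
  induction w with
  | nil => simp [wv]
  | cons a w ih =>
    have h1 : wv (yE g act) (a :: w) = yE g act a * wv (yE g act) w := by simp [wv]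
    rw [h1, ih]
    unfold yE
    by_cases ha : act a = true
    · by_cases hw : w.all act = true
      · rw [if_pos ha, if_pos hw, if_pos (by rw [List.all_cons, ha, hw]; rfl)]
        simp [wv]
      · rw [if_neg hw, mul_zero, if_neg]
        rw [List.all_cons, ha, Bool.true_and]
        exact hw
    · rw [if_neg ha, zero_mul, if_neg]
      rw [List.all_cons, Bool.and_eq_true]
      exact fun h => ha h.1

theorem pv_cons' (y : ℕ → ℝ) (m : ℤ × List ℕ) (p : Pol) :
    pv y (m :: p) = (m.1 : ℝ) * wv y m.2 + pv y p := by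
  simp [pv]

theorem pv_filtE (g : ℕ → ℝ) (act : ℕ → Bool) (p : Pol) :
    pv g (filtE act p) = pv (yE g act) p := by
  have key : ∀ (p s : Pol), pv g (p.foldl (fun s m => cond (m.2.all act)
      (s ++ [(m.1, m.2.map (fun i => i.unpair.2))]) s) s) = pv g s + pv (yE g act) p := by
    intro p
    induction p with
    | nil => intro s; simp [pv]
    | cons m p ih =>
      intro s
      rw [List.foldl_cons, ih, pv_cons', wv_yE]
      by_cases hm : m.2.all act = true
      · rw [hm, cond_true, if_pos rfl, pv_append]
        have : pv g [(m.1, m.2.map (fun i => i.unpair.2))] =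
            (m.1 : ℝ) * wv g (m.2.map (fun i => i.unpair.2)) := by simp [pv]
        rw [this]
        ring
      · have hm' := hm
        rw [Bool.not_eq_true] at hm'
        rw [hm', cond_false, if_neg (by simp)]
        ring
  unfold filtE
  rw [key]
  simp [pv]

abbrev Nn : Type := Pol × Pol

section field

variable (Z : Pol → Bool) (hZ : Computable Z) (y : ℕ → ℝ)
variable (hzt : ∀ p, Z p = true ↔ pv y p = 0)

noncomputable def cN (a : Nn) : ℝ := pv y a.1 / pv y a.2

def addN (a b : Nn) : Nn := cond (Z a.2) b (cond (Z b.2) a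
  (mulP a.1 b.2 ++ mulP b.1 a.2, mulP a.2 b.2))
def mulN (a b : Nn) : Nn := (mulP a.1 b.1, mulP a.2 b.2)
def negN (a : Nn) : Nn := (negP a.1, a.2)
def invN (a : Nn) : Nn := (a.2, a.1)
def eqN (a b : Nn) : Bool := Z (addN Z a (negN b)).1 || Z (addN Z a (negN b)).2

include hZ in
theorem comp_addN : Computable₂ (addN Z) := by
  unfold addN
  have a1 : Computable (fun q : Nn × Nn => q.1.1) := Computable.fst.comp Computable.fst
  have a2 : Computable (fun q : Nn × Nn => q.1.2) := Computable.snd.comp Computable.fst
  have b1 : Computable (fun q : Nn × Nn => q.2.1) := Computable.fst.comp Computable.snd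
  have b2 : Computable (fun q : Nn × Nn => q.2.2) := Computable.snd.comp Computable.snd
  have hm := comp_poly.1
  refine Computable.cond (hZ.comp a2) Computable.snd
    (Computable.cond (hZ.comp b2) Computable.fst (Computable.pair ?_ (hm.comp a2 b2)))
  exact Computable.list_append.comp (hm.comp a1 b2) (hm.comp b1 a2)

theorem comp_mulN : Computable₂ mulN := by
  unfold mulN
  have a1 : Computable (fun q : Nn × Nn => q.1.1) := Computable.fst.comp Computable.fst
  have a2 : Computable (fun q : Nn × Nn => q.1.2) := Computable.snd.comp Computable.fst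
  have b1 : Computable (fun q : Nn × Nn => q.2.1) := Computable.fst.comp Computable.snd
  have b2 : Computable (fun q : Nn × Nn => q.2.2) := Computable.snd.comp Computable.snd
  have hm := comp_poly.1
  exact Computable.pair (hm.comp a1 b1) (hm.comp a2 b2)

theorem comp_negN : Computable negN := by
  unfold negN
  exact Computable.pair (comp_poly.2.1.comp Computable.fst) Computable.snd

theorem comp_invN : Computable invN := by
  unfold invN
  exact Computable.pair Computable.snd Computable.fst

include hZ in
theorem comp_eqN : Computable₂ (eqN Z) := by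
  unfold eqN
  have h : Computable (fun q : Nn × Nn => addN Z q.1 (negN q.2)) :=
    (comp_addN Z hZ).comp Computable.fst (comp_negN.comp Computable.snd)
  exact (Primrec.or.to_comp).comp (hZ.comp (Computable.fst.comp h))
    (hZ.comp (Computable.snd.comp h))

include hzt in
theorem cN_add (a b : Nn) : cN y (addN Z a b) = cN y a + cN y b := by
  unfold addN
  by_cases ha : Z a.2 = true
  · rw [ha, cond_true]
    have : cN y a = 0 := by unfold cN; rw [(hzt _).1 ha]; simp
    rw [this]; simp
  · have ha' : pv y a.2 ≠ 0 := fun h => ha ((hzt _).2 h)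
    rw [Bool.not_eq_true] at ha
    rw [ha, cond_false]
    by_cases hb : Z b.2 = true
    · rw [hb, cond_true]
      have : cN y b = 0 := by unfold cN; rw [(hzt _).1 hb]; simp
      rw [this]; simp
    · have hb' : pv y b.2 ≠ 0 := fun h => hb ((hzt _).2 h)
      rw [Bool.not_eq_true] at hb
      rw [hb, cond_false]
      unfold cN
      simp only [pv_append, pv_mulP]
      field_simp

theorem cN_mul (a b : Nn) : cN y (mulN a b) = cN y a * cN y b := by
  unfold cN mulN
  simp only [pv_mulP]
  rw [mul_div_mul_comm]

theorem cN_neg (a : Nn) : cN y (negN a) = - cN y a := by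
  unfold cN negN
  simp only [pv_negP]
  rw [neg_div]

theorem cN_inv (a : Nn) : cN y (invN a) = (cN y a)⁻¹ := by
  unfold cN invN
  rw [inv_div]

include hzt in
theorem eqN_iff (a b : Nn) : eqN Z a b = true ↔ cN y a = cN y b := by
  unfold eqN
  rw [Bool.or_eq_true, hzt, hzt]
  have h1 : cN y (addN Z a (negN b)) = cN y a - cN y b := by
    rw [cN_add Z y hzt, cN_neg]; ring
  have h2 : (pv y (addN Z a (negN b)).1 = 0 ∨ pv y (addN Z a (negN b)).2 = 0) ↔
      cN y (addN Z a (negN b)) = 0 := by
    unfold cN
    rw [div_eq_zero_iff]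
  rw [h2, h1, sub_eq_zero]

/-- the field of all values of notations -/
def FF : Subfield ℝ where
  carrier := {x | ∃ a : Nn, cN y a = x}
  mul_mem' := by
    rintro _ _ ⟨a, rfl⟩ ⟨b, rfl⟩
    exact ⟨mulN a b, cN_mul y a b⟩
  one_mem' := ⟨([(1, [])], [(1, [])]), by simp [cN, pv, wv]⟩
  add_mem' := by
    rintro _ _ ⟨a, rfl⟩ ⟨b, rfl⟩
    exact ⟨addN Z a b, cN_add Z y hzt a b⟩
  zero_mem' := ⟨([], []), by simp [cN, pv]⟩
  neg_mem' := by
    rintro _ ⟨a, rfl⟩
    exact ⟨negN a, cN_neg y a⟩
  inv_mem' := by
    rintro _ ⟨a, rfl⟩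
    exact ⟨invN a, cN_inv y a⟩

theorem cN_single (i : ℕ) : cN y ([(1, [i])], [(1, [])]) = y i := by
  simp [cN, pv, wv]

theorem y_mem (k : ℕ) : y k ∈ FF Z y hzt := ⟨([(1, [k])], [(1, [])]), cN_single y k⟩

end field

theorem cN_mem (K : Subfield ℝ) (y : ℕ → ℝ) (hy : ∀ i, y i ∈ K) (a : Nn) : cN y a ∈ K := by
  have hw : ∀ w : List ℕ, wv y w ∈ K := by
    intro w
    induction w with
    | nil => simp [wv]
    | cons b w ih =>
      have : wv y (b :: w) = y b * wv y w := by simp [wv]
      rw [this]
      exact mul_mem (hy b) ih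
  have hp : ∀ p : Pol, pv y p ∈ K := by
    intro p
    induction p with
    | nil => simp [pv]
    | cons m p ih =>
      rw [pv_cons']
      exact add_mem (mul_mem (intCast_mem K m.1) (hw _)) ih
  exact div_mem (hp _) (hp _)

end copyaux
/-- a computable copy of the field generated by the active letters -/
theorem exists_copy (I : ℕ → Prop) (y : ℕ → ℝ) (hM : Model I y) (E : ℕ → ℕ → Bool)
    (hE : Computable₂ E) (hI : ∀ i, I i ↔ ∃ t, E t i = true) :
    ∃ e : ℕ ≃ Subfield.closure (y '' {i | I i}),
      Computable₂ (fun a b : ℕ => e.symm (e a + e b)) ∧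
      Computable₂ (fun a b : ℕ => e.symm (e a * e b)) ∧
      Computable (fun a : ℕ => e.symm (-(e a))) ∧
      Computable (fun a : ℕ => e.symm ((e a)⁻¹)) := by
  obtain ⟨act, hact⟩ : ∃ act : ℕ → Bool, act = fun i => E i.unpair.1 i.unpair.2 := ⟨_, rfl⟩
  have hu1 : Computable (fun n : ℕ => n.unpair.1) := (Primrec.fst.comp Primrec.unpair).to_comp
  have hu2 : Computable (fun n : ℕ => n.unpair.2) := (Primrec.snd.comp Primrec.unpair).to_comp
  have hactc : Computable act := by
    rw [hact]
    exact hE.comp hu1 hu2
  have hact_iff : ∀ t n, act (Nat.pair t n) = true ↔ E t n = true := by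
    intro t n
    rw [hact]
    simp only [Nat.unpair_pair]
  have hyE : ∀ t n, yE y act (Nat.pair t n) = if E t n = true then y n else 0 := by
    intro t n
    unfold yE
    rw [Nat.unpair_pair]
    by_cases h : E t n = true
    · rw [if_pos h, if_pos ((hact_iff t n).2 h)]
    · rw [if_neg h, if_neg (fun h' => h ((hact_iff t n).1 h'))]
  have hZ : Computable (fun p => zt (filtE act p)) := comp_zt.comp (comp_filtE hactc)
  have hfl : ∀ p : Pol, LettersIn I (filtE act p) := by
    intro p
    have key : ∀ (p s : Pol), LettersIn I s → LettersIn I (p.foldl (fun s m => cond (m.2.all act)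
        (s ++ [(m.1, m.2.map (fun i => i.unpair.2))]) s) s) := by
      intro p
      induction p with
      | nil => intro s hs; exact hs
      | cons m p ih =>
        intro s hs
        rw [List.foldl_cons]
        apply ih
        by_cases hm : m.2.all act = true
        · rw [hm, cond_true]
          intro m' hm' n hn
          rcases List.mem_append.1 hm' with h | h
          · exact hs m' h n hn
          · rw [List.mem_singleton] at h
            subst h
            obtain ⟨i, hi, rfl⟩ := List.mem_map.1 hn
            rw [List.all_eq_true] at hm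
            have h1 := hm i hi
            rw [hact] at h1
            exact (hI _).2 ⟨_, h1⟩
        · rw [Bool.not_eq_true] at hm
          rw [hm, cond_false]
          exact hs
    exact key p [] (fun m hm => absurd hm List.not_mem_nil)
  have hzt : ∀ p, zt (filtE act p) = true ↔ pv (yE y act) p = 0 := by
    intro p
    rw [← pv_filtE y act p]
    exact zt_iff I y hM (filtE act p) (hfl p)
  have hyK : ∀ i, yE y act i ∈ Subfield.closure (y '' {i | I i}) := by
    intro i
    obtain ⟨t, n, rfl⟩ : ∃ t n, i = Nat.pair t n := ⟨i.unpair.1, i.unpair.2, (Nat.pair_unpair i).symm⟩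
    rw [hyE]
    split_ifs with h
    · exact Subfield.subset_closure ⟨n, (hI n).2 ⟨t, h⟩, rfl⟩
    · exact zero_mem _
  have hle : Subfield.closure (y '' {i | I i}) ≤ FF (fun p => zt (filtE act p)) (yE y act) hzt := by
    rw [Subfield.closure_le]
    rintro _ ⟨n, hn, rfl⟩
    obtain ⟨t, ht⟩ := (hI n).1 hn
    have h1 := hyE t n
    rw [if_pos ht] at h1
    rw [← h1]
    exact y_mem _ _ hzt _
  let c : Nn → Subfield.closure (y '' {i | I i}) := fun a => ⟨cN (yE y act) a, cN_mem _ _ hyK a⟩
  haveI : Infinite (Subfield.closure (y '' {i | I i})) :=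
    Infinite.of_injective (fun n : ℕ => (n : Subfield.closure (y '' {i | I i}))) Nat.cast_injective
  obtain ⟨e, u, v, hu, hv, h1, h2, h3, h4, h5, h6⟩ :=
    exists_field_numbering (F := Subfield.closure (y '' {i | I i})) c
    (fun ⟨x, hx⟩ => by
      obtain ⟨a, ha⟩ := hle hx
      exact ⟨a, Subtype.ext ha⟩)
    (addN (fun p => zt (filtE act p))) mulN negN invN (comp_addN _ hZ) comp_mulN
    comp_negN comp_invN
    (fun a b => Subtype.ext (cN_add _ _ hzt a b)) (fun a b => Subtype.ext (cN_mul _ a b))
    (fun a => Subtype.ext (cN_neg _ a)) (fun a => Subtype.ext (cN_inv _ a))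
    (eqN (fun p => zt (filtE act p))) (comp_eqN _ hZ)
    (fun a b => (eqN_iff _ _ hzt a b).trans ⟨fun h => Subtype.ext h, fun h => congrArg Subtype.val h⟩)
  exact ⟨e, h3, h4, h5, h6⟩

/-! ### the diagonalisation -/

open Nat.Partrec (Code)

/-- programs: codes for addition, multiplication, the cone, a number for `t`, a number for `-2` -/
abbrev Prog : Type := Code × Code × Code × ℕ × ℕ

/-- the `k`-th iterate computed in the structure given by the program -/
noncomputable def it (p : Prog) (k : ℕ) : Part ℕ :=
  Nat.rec (Part.some p.2.2.2.1) (fun _ r => r.bind fun v =>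
    (Code.eval p.2.1 (Nat.pair v v)).bind fun w => Code.eval p.1 (Nat.pair w p.2.2.2.2)) k

theorem it_zero (p : Prog) : it p 0 = Part.some p.2.2.2.1 := rfl
theorem it_succ (p : Prog) (k : ℕ) : it p (k + 1) = (it p k).bind fun v =>
    (Code.eval p.2.1 (Nat.pair v v)).bind fun w => Code.eval p.1 (Nat.pair w p.2.2.2.2) := rfl

/-- the answer of the `n`-th program on the `3n`-th iterate -/
noncomputable def Th (n : ℕ) : Part ℕ :=
  (it (Denumerable.ofNat Prog n) (3 * n)).bind fun v =>
    Code.eval (Denumerable.ofNat Prog n).2.2.1 v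

theorem partrec_Th : Partrec Th := by
  unfold Th
  have hp : Computable (fun n : ℕ => Denumerable.ofNat Prog n) := Computable.ofNat Prog
  have hcA : Computable (fun n : ℕ => (Denumerable.ofNat Prog n).1) := Computable.fst.comp hp
  have hcM : Computable (fun n : ℕ => (Denumerable.ofNat Prog n).2.1) :=
    Computable.fst.comp (Computable.snd.comp hp)
  have hcP : Computable (fun n : ℕ => (Denumerable.ofNat Prog n).2.2.1) :=
    Computable.fst.comp (Computable.snd.comp (Computable.snd.comp hp))
  have hc : Computable (fun n : ℕ => (Denumerable.ofNat Prog n).2.2.2.1) :=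
    Computable.fst.comp (Computable.snd.comp (Computable.snd.comp (Computable.snd.comp hp)))
  have hm : Computable (fun n : ℕ => (Denumerable.ofNat Prog n).2.2.2.2) :=
    Computable.snd.comp (Computable.snd.comp (Computable.snd.comp (Computable.snd.comp hp)))
  have hpair : Computable₂ Nat.pair := Primrec₂.natPair.to_comp
  have h3 : Computable (fun n : ℕ => 3 * n) :=
    (Primrec.nat_mul.comp (Primrec.const 3) Primrec.id).to_comp
  have hit : Partrec (fun n : ℕ => it (Denumerable.ofNat Prog n) (3 * n)) := by
    unfold it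
    refine Partrec.nat_rec (f := fun n : ℕ => 3 * n)
      (g := fun n => Part.some (Denumerable.ofNat Prog n).2.2.2.1)
      (h := fun n (r : ℕ × ℕ) => (Code.eval (Denumerable.ofNat Prog n).2.1 (Nat.pair r.2 r.2)).bind
        fun w => Code.eval (Denumerable.ofNat Prog n).1 (Nat.pair w (Denumerable.ofNat Prog n).2.2.2.2))
      h3 hc.partrec ?_
    refine Partrec.bind (f := fun a : ℕ × (ℕ × ℕ) =>
        Code.eval (Denumerable.ofNat Prog a.1).2.1 (Nat.pair a.2.2 a.2.2))
      (g := fun a w => Code.eval (Denumerable.ofNat Prog a.1).1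
        (Nat.pair w (Denumerable.ofNat Prog a.1).2.2.2.2)) ?_ ?_
    · exact Code.eval_part.comp (hcM.comp Computable.fst)
        (hpair.comp (Computable.snd.comp Computable.snd) (Computable.snd.comp Computable.snd))
    · exact Code.eval_part.comp (hcA.comp (Computable.fst.comp Computable.fst))
        (hpair.comp Computable.snd (hm.comp (Computable.fst.comp Computable.fst)))
  exact hit.bind (Code.eval_part.comp (hcP.comp Computable.fst) Computable.snd)

/-- the labels: `(n, true)` if the answer is `0`, `(n, false)` if the answer is `1` -/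
def XX (n : ℕ) (s : Bool) : Prop := (bif s then 0 else 1) ∈ Th n

theorem XX_fun (n : ℕ) (s s' : Bool) (h : XX n s) (h' : XX n s') : s = s' := by
  unfold XX at h h'
  have h1 := Part.mem_unique h h'
  cases s <;> cases s' <;> simp_all

theorem exists_E : ∃ E : ℕ → ℕ → Bool, Computable₂ E ∧
    ∀ i, (i = 0 ∨ XX (nn i) (ss i)) ↔ ∃ t, E t i = true := by
  obtain ⟨c, hc⟩ := Code.exists_code.1 (Partrec.nat_iff.1 partrec_Th)
  refine ⟨fun t i => (i == 0) || decide (Code.evaln t c (nn i) = some (bif ss i then 0 else 1)), ?_, ?_⟩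
  · have hnn : Primrec nn := Primrec.nat_div.comp (Primrec.nat_sub.comp Primrec.id (Primrec.const 1))
      (Primrec.const 2)
    have hss : Primrec ss := (Primrec.beq (α := ℕ)).comp
      (Primrec.nat_mod.comp Primrec.id (Primrec.const 2)) (Primrec.const 1)
    have h1 : Primrec (fun a : ℕ × ℕ => (a.2 == 0)) :=
      (Primrec.beq (α := ℕ)).comp Primrec.snd (Primrec.const 0)
    have h2 : Primrec (fun a : ℕ × ℕ => Code.evaln a.1 c (nn a.2)) :=
      Code.primrec_evaln.comp ((Primrec.fst.pair (Primrec.const c)).pair (hnn.comp Primrec.snd))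
    have h3 : Primrec (fun a : ℕ × ℕ => (some (bif ss a.2 then 0 else 1) : Option ℕ)) :=
      Primrec.option_some.comp (Primrec.cond (hss.comp Primrec.snd) (Primrec.const 0)
        (Primrec.const 1))
    have h4 : Primrec (fun a : ℕ × ℕ => ((a.2 == 0) ||
        decide (Code.evaln a.1 c (nn a.2) = some (bif ss a.2 then 0 else 1)))) :=
      Primrec.or.comp h1 ((Primrec.eq (α := Option ℕ)).decide.comp h2 h3)
    exact h4.to_comp
  · intro i
    have h1 : XX (nn i) (ss i) ↔ ∃ t, Code.evaln t c (nn i) = some (bif ss i then 0 else 1) := by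
      unfold XX
      rw [← hc, Code.evaln_complete]
      exact Iff.rfl
    rw [h1]
    simp only [Bool.or_eq_true, beq_iff_eq, decide_eq_true_eq]
    constructor
    · rintro (h | ⟨t, h⟩)
      · exact ⟨0, Or.inl h⟩
      · exact ⟨t, Or.inr h⟩
    · rintro ⟨t, h | h⟩
      · exact Or.inl h
      · exact Or.inr ⟨t, h⟩

/-- iterates in a commutative ring -/
def gK {R : Type} [Ring R] (t : R) (k : ℕ) : R := Nat.rec t (fun _ v => v * v + (-2)) k

theorem gK_zero {R : Type} [Ring R] (t : R) : gK t 0 = t := rfl
theorem gK_succ {R : Type} [Ring R] (t : R) (k : ℕ) :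
    gK t (k + 1) = gK t k * gK t k + (-2) := rfl

theorem coe_gK (K : Subfield ℝ) (t : K) (k : ℕ) : ((gK t k : K) : ℝ) = gr k (t : ℝ) := by
  induction k with
  | zero => rfl
  | succ k ih =>
    rw [gK_succ, gr_succ, ← ih]
    show ((gK t k : K) : ℝ) * ((gK t k : K) : ℝ) + (-(2 : ℝ)) = _
    ring

/-- a computable copy of the field has no computable ordering -/
theorem no_order (K : Subfield ℝ) (t : K) (hX : ∀ n s, XX n s → ∃ w : K, w ≠ 0 ∧
      w * w = (bif s then 1 else -1) * gK t (3 * n))
    (e : ℕ ≃ K) (hA : Computable₂ (fun a b : ℕ => e.symm (e a + e b)))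
    (hM : Computable₂ (fun a b : ℕ => e.symm (e a * e b))) (P : Set K)
    (hP : ComputablePred (fun a : ℕ => e a ∈ P)) (h0 : (0 : K) ∉ P)
    (hadd : ∀ x y : K, x ∈ P → y ∈ P → x + y ∈ P)
    (hmul : ∀ x y : K, x ∈ P → y ∈ P → x * y ∈ P)
    (htot : ∀ x : K, x ≠ 0 → x ∈ P ∨ -x ∈ P) : False := by
  have hsq : ∀ w : K, w ≠ 0 → w * w ∈ P := by
    intro w hw
    rcases htot w hw with h | h
    · exact hmul _ _ h h
    · have := hmul _ _ h h
      rwa [neg_mul_neg] at this
  have hu1 : Computable (fun n : ℕ => n.unpair.1) := (Primrec.fst.comp Primrec.unpair).to_comp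
  have hu2 : Computable (fun n : ℕ => n.unpair.2) := (Primrec.snd.comp Primrec.unpair).to_comp
  have hA' : Computable (fun n : ℕ => e.symm (e n.unpair.1 + e n.unpair.2)) := hA.comp hu1 hu2
  have hM' : Computable (fun n : ℕ => e.symm (e n.unpair.1 * e n.unpair.2)) := hM.comp hu1 hu2
  classical
  obtain ⟨hdec, hPc⟩ := hP
  have hP' : Computable (fun n : ℕ => (bif decide (e n ∈ P) then 1 else 0 : ℕ)) := by
    refine Computable.cond ?_ (Computable.const 1) (Computable.const 0)
    refine hPc.of_eq fun n => ?_
    congr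
  obtain ⟨cA, hcA⟩ := Code.exists_code.1 (Partrec.nat_iff.1 hA'.partrec)
  obtain ⟨cM, hcM⟩ := Code.exists_code.1 (Partrec.nat_iff.1 hM'.partrec)
  obtain ⟨cP, hcP⟩ := Code.exists_code.1 (Partrec.nat_iff.1 hP'.partrec)
  let p : Prog := (cA, cM, cP, e.symm t, e.symm (-2))
  let n : ℕ := Encodable.encode p
  have hp : Denumerable.ofNat Prog n = p := Denumerable.ofNat_encode p
  have hit : ∀ k, it p k = Part.some (e.symm (gK t k)) := by
    intro k
    induction k with
    | zero => rfl
    | succ k ih =>
      rw [it_succ, ih, Part.bind_some]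
      show (Code.eval cM _).bind (fun w => Code.eval cA (Nat.pair w (e.symm (-2)))) = _
      rw [hcM]
      simp only [PFun.coe_val, Nat.unpair_pair, Equiv.apply_symm_apply, Part.bind_some, hcA]
      rw [gK_succ]
  have hTh : Th n = Part.some (bif decide (gK t (3 * n) ∈ P) then 1 else 0) := by
    unfold Th
    rw [hp, hit, Part.bind_some]
    show Code.eval cP _ = _
    rw [hcP]
    simp only [PFun.coe_val, Equiv.apply_symm_apply]
  by_cases hg : gK t (3 * n) ∈ P
  · have hx : XX n false := by
      unfold XX
      rw [hTh]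
      simp [hg]
    obtain ⟨w, hw, hww⟩ := hX n false hx
    have h1 := hsq w hw
    rw [hww] at h1
    have h2 := hadd _ _ hg h1
    apply h0
    have : gK t (3 * n) + (bif false then 1 else -1) * gK t (3 * n) = 0 := by
      rw [cond_false]; ring
    rw [this] at h2
    exact h2
  · have hx : XX n true := by
      unfold XX
      rw [hTh]
      simp [hg]
    obtain ⟨w, hw, hww⟩ := hX n true hx
    have h1 := hsq w hw
    rw [hww, cond_true, one_mul] at h1
    exact hg h1

theorem main : ¬ (∀ (F : Type) [Field F],
      (∀ (n : ℕ) (c : Fin n → F), ∑ i, c i ^ 2 = 0 → ∀ i, c i = 0) →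
      (∃ e : ℕ ≃ F,
        Computable₂ (fun a b : ℕ => e.symm (e a + e b)) ∧
        Computable₂ (fun a b : ℕ => e.symm (e a * e b)) ∧
        Computable (fun a : ℕ => e.symm (-(e a))) ∧
        Computable (fun a : ℕ => e.symm ((e a)⁻¹))) →
      ∃ e : ℕ ≃ F,
        Computable₂ (fun a b : ℕ => e.symm (e a + e b)) ∧
        Computable₂ (fun a b : ℕ => e.symm (e a * e b)) ∧
        Computable (fun a : ℕ => e.symm (-(e a))) ∧
        Computable (fun a : ℕ => e.symm ((e a)⁻¹)) ∧
        ∃ P : Set F,
          ComputablePred (fun a : ℕ => e a ∈ P) ∧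
          (0 : F) ∉ P ∧
          (∀ x y : F, x ∈ P → y ∈ P → x + y ∈ P) ∧
          (∀ x y : F, x ∈ P → y ∈ P → x * y ∈ P) ∧
          (∀ x : F, x ≠ 0 → x ∈ P ∨ -x ∈ P)) := by
  intro hall
  classical
  let ε : ℕ → Bool := fun n => decide (XX n true)
  have hε : ∀ n s, XX n s → ε n = s := by
    intro n s h
    by_cases h1 : XX n true
    · have := XX_fun n s true h h1
      subst this
      exact decide_eq_true h1
    · cases s
      · exact decide_eq_false h1
      · exact absurd h h1
  obtain ⟨τ, hτ, hs⟩ := exists_tr ε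
  have hM := model XX ε hε τ hτ hs
  obtain ⟨E, hE, hI⟩ := exists_E
  obtain ⟨e0, he0⟩ := exists_copy _ _ hM E hE hI
  have hreal : ∀ (n : ℕ) (c : Fin n →
      Subfield.closure (yy τ '' {i | i = 0 ∨ XX (nn i) (ss i)})),
      ∑ i, c i ^ 2 = 0 → ∀ i, c i = 0 := by
    intro n c hc i
    have h1 : ∑ i, ((c i : ℝ)) ^ 2 = 0 := by
      have := congrArg (Subtype.val) hc
      push_cast at this
      exact this
    rw [Finset.sum_eq_zero_iff_of_nonneg (fun i _ => sq_nonneg _)] at h1
    have h2 := h1 i (Finset.mem_univ _)
    exact Subtype.ext (pow_eq_zero_iff two_ne_zero |>.1 h2)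
  obtain ⟨e, hA, hMu, -, -, P, hP, h0, hadd, hmul, htot⟩ :=
    hall (Subfield.closure (yy τ '' {i | i = 0 ∨ XX (nn i) (ss i)})) hreal ⟨e0, he0⟩
  have hτK : τ ∈ Subfield.closure (yy τ '' {i | i = 0 ∨ XX (nn i) (ss i)}) :=
    Subfield.subset_closure ⟨0, Or.inl rfl, yy_zero τ⟩
  refine no_order (Subfield.closure (yy τ '' {i | i = 0 ∨ XX (nn i) (ss i)})) ⟨τ, hτK⟩ ?_ e hA hMu P
    hP h0 hadd hmul htot
  intro n s hns
  -- the letter
  obtain ⟨i, hi0, hin, his⟩ : ∃ i, i ≠ 0 ∧ nn i = n ∧ ss i = s := by
    cases s
    · refine ⟨2 * n + 2, by omega, ?_, ?_⟩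
      · unfold nn; omega
      · unfold ss; simp
    · refine ⟨2 * n + 1, by omega, ?_, ?_⟩
      · unfold nn; omega
      · unfold ss; simp
  have hpos : 0 < sr (ss i) * gr (3 * nn i) τ := by
    rw [his, hin, ← hε n s hns]
    exact hs n
  refine ⟨⟨yy τ i, Subfield.subset_closure ⟨i, Or.inr ?_, rfl⟩⟩, ?_, ?_⟩
  · rw [hin, his]; exact hns
  · intro h
    have h1 : yy τ i = 0 := congrArg Subtype.val h
    rw [yy_ne τ i hi0] at h1
    exact (Real.sqrt_pos.2 hpos).ne' h1
  · apply Subtype.ext
    have h1 : yy τ i * yy τ i = sr (ss i) * gr (3 * nn i) τ := by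
      rw [yy_ne τ i hi0, Real.mul_self_sqrt hpos.le]
    rw [Subfield.coe_mul, Subfield.coe_mul, coe_gK]
    show yy τ i * yy τ i = _
    rw [h1, his, hin]
    congr 1
    cases s <;> simp [sr]

end Pool.Agent.H269R3.CF
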